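import Pool.Agent.Y129.WM.PMain

/-!
# The `p`-adic weight-monodromy conjecture and the exponential map at the central point

Let `F` be a finite extension of `ℚ_p` whose residue field has `q = p ^ h` elements, `P = P_0` and
`Γ = W_F`. For a smooth proper `F`-scheme `X` (of pure dimension) let
`H^m(X) = D_pst(H^m_et(X_F̄, ℚ_p))`, a module over `P` with a semilinear bijection `φ`, the
operator `N` (`N φ = p φ N`), and a semilinear action of `Γ` (a `PstMod`). The element `g` of `Γ` acts
linearly as `ρ(g) = g φ^{n(g)}`, and `(ρ, N)` is the Weil-Deligne representation `toWD` of the
question Q1. A `PstCohomology s` consists of these data with the theorems on them which are used (they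
are listed in the structures `PstTheory` and `PstCohomology`):

* the eigenvalues of `ρ(Fr)` are Weil numbers of integral weights (weight spectral sequence,
  alterations), the formula of Künneth, Poincaré duality, correspondences;
* there is a Tate curve `E` over `F`;
* `good`: for every nonzero subspace `S` of the part of weight `a` of `H^m(X)` which is stable under `φ` and
  `Γ` there are a `Y` with potentially good reduction, `n` and `j` with `a + n = 2 j`, and a
  nonzero element of `H^n(Y) ⊗ S` which is fixed by `Γ` and on which `φ` is multiplication by `p ^ j`. (The
  eigenvalues of Frobenius on `S` are Weil numbers which occur in the crystalline cohomology of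
  smooth projective varieties over finite fields. By the theorem of Honda and Tate, powers of
  them occur up to Tate twists in the cohomology of abelian varieties, which can be lifted to
  abelian varieties with complex multiplication over a finite extension `F'`. Take for `Y` such an
  abelian variety over `F'`, considered as a scheme over `F`. The existence of an element fixed by `φ` and
  `Γ`, and not only by `ρ`, is the theorem 90 of Hilbert.)

Theorem. The following statements are equivalent (`F` is fixed).

1. `WeightMonodromy`: the `p`-adic weight-monodromy conjecture for all `X` and `m`, that is,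
   `N ^ k` is an isomorphism from the part of weight `m + k` of `H^m(X)` to the part of weight
   `m - k` for all `k` (equivalently, `gr^N_s H^m(X)` is pure of weight `m + s` for all `s`).
2. `NoCrys`: `D_cris(V(r))^{φ = 1} = 0` for `V = H^m_et(X_F̄, ℚ_p)`, for all `X` and `m < 2 r`.
3. `NoCentralCrys`: `D_cris(V(r))^{φ = 1} = 0` for `V = H^n_et(X_F̄, ℚ_p)`, for all `X` of odd
   dimension `n = 2 r - 1`.
4. `OneExponent f`, for one or for all functions `f` with positive values with
   `f(n) / n → 0`: for every `X` there is one exponent `e` with `1 ≤ e ≤ f(dim X)` such that `N ^ e` is
   injective on the part of weight `m + e` of `H^m(X)` for all `m`.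

Remark (not part of the formal statement). For `n = dim X = 2 r - 1` the representation `V(r)` is
isomorphic to its dual `V(r)^*(1)`, and by Bloch and Kato `dim H^1_f / H^1_e` of a de Rham representation
`W` is `dim D_cris(W)^{φ = 1}`, and `dim H^1_g / H^1_f` is the same number for `W^*(1)`. So 3 says that
`H^1_e(F, W) = H^1_f(F, W) = H^1_g(F, W)` for `W = H^n_et(X_F̄, ℚ_p)((n + 1) / 2)`, that is, all de Rham
extensions come from the exponential map, for all `X` of odd dimension `n`. This is the case
of the central point, which is used in the theory of `p`-adic heights.

Proof. 1 ⟹ 2: a vector of `D_cris(V(r))^{φ = 1}` is killed by `N` and of weight `2 r > m`.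
3 ⟹ 2: multiply with the classes `1`, `e0` and `pt` in the cohomology of `E`.
2 ⟹ 1: by an argument of Deligne (Weil II), if `N ^ k` is not injective on the part of weight `m + k` of
`H^m(X)`, then the kernel of `N` on `H^{2m}(X × X)` has a part of a weight `> 2 m`. So let `S ≠ 0` be
the part of a weight `a > m` of the kernel of `N` on some `H^m(X)`. It is stable under `φ` and `Γ`. The
element `z` of `H^n(Y) ⊗ S` given by `good` is killed by `N`, as `N = 0` on `H^n(Y)`, and it is in
`D_cris(H^{n+m}(Y × X)(j))^{φ = 1}`, where `n + m < n + a = 2 j`. This contradicts 2.
4 ⟹ 1: products `v × ... × v` of a class in the kernel of `N` of weight `> m`, and products with the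
classes `1` and `e0`, see the file `WM/GMain`.
-/

namespace Pool.Agent.Results.MP_6451f1_ag.CentralFrobenius

open Pool.Agent.Y129.WM

/-- The `p`-adic weight-monodromy conjecture for all `X` is equivalent to
`D_cris(H^m(X)(r))^{φ = 1} = 0` for all `X` and `m < 2 r`, to the case of this in which
`m = dim X = 2 r - 1`, and to the injectivity of `N ^ e` on the part of weight `m + e` for one exponent
`e` for every `X`. -/
theorem result {P Γ : Type} [Field P] [CharZero P] [Group Γ] {s : PadicGroup P Γ}
    (C : PstCohomology s) {f : ℕ → ℕ} (hf : Sublinear f) :
    (C.WeightMonodromy ↔ C.NoCrys) ∧ (C.WeightMonodromy ↔ C.NoCentralCrys) ∧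
      (C.WeightMonodromy ↔ C.OneExponent f) :=
  C.main hf

end Pool.Agent.Results.MP_6451f1_ag.CentralFrobenius
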