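import Pool.Agent.Y691.TU.WmMain

/-!
# The p-adic monodromy-weight conjecture and cubic hypersurfaces
-/

set_option autoImplicit false

open CategoryTheory CategoryTheory.Limits AlgebraicGeometry Pool.Agent.Y116.UV
  Pool.Agent.Y101.Th Pool.Agent.Y691.TU

namespace Pool.Agent.Results.MP_6451f1_ag.CubicHypersurfaces

universe v u

/-- **The `p`-adic monodromy-weight conjecture and cubic hypersurfaces.** Let `K` be a complete
discretely valued field of characteristic zero with residue field of order `q = p^h`, `C` the category
of motives for absolute Hodge cycles (or for motivated cycles) over `K`, `D` the graded pieces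
`gr^W_w H^j_c(X)` as objects of `C`, and `R` the realisation `D_pst` of the `p`-adic étale
realisation, over an algebraic closure of the maximal unramified field `P_0`, with its operator `N`
and the linear action of the Weil group `W`, with their known properties; `surfaces` is the known
case of dimension at most two. The
realisation of the piece `gr^W_w H^j_c` of the smooth affine cubic hypersurface `t(x, y, z) = 1` has the
monodromy-weight property of weight `w` for every trilinear form `t` over `K` with a block of at most
four variables. For each `n` the property is true for all smooth projective schemes over `K` of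
dimension at most `n` if and only if it is true for all `t` with a block of at most `n + 2`
variables; it is true for all smooth projective schemes over `K` if and only if it is true for all
`t`. -/
theorem result {K : Type} [Field K] [CharZero K] {C : Type u} [Category.{v} C] [Abelian C]
    {D : Graded K C} {Ω W : Type} [Field Ω] [Algebra ℚ Ω] {R : LocalRealisation C Ω W}
    {deg : W → ℤ} {q : ℕ} (hk : Resolution K) (hC : Semisimple C) (hD : IsGraded D)
    (hR : IsLocalRealisation R D.L deg q) (hq : 0 < q)
    (surfaces : ∀ X : Sch K, SmProj X → topologicalKrullDim X.left ≤ 2 → ∀ i,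
      MWAt R deg q i (D.H X i i)) :
    (∀ (a b c : ℕ) (t : Fin a → Fin b → Fin c → K), (a ≤ 4 ∨ b ≤ 4 ∨ c ≤ 4) → ∀ w j,
      MWAt R deg q w (D.H (hypS t) w j)) ∧
    (∀ n : ℕ,
      (∀ X : Sch K, SmProj X → topologicalKrullDim X.left ≤ n → ∀ i,
          MWAt R deg q i (D.H X i i)) ↔
        ∀ (a b c : ℕ) (t : Fin a → Fin b → Fin c → K), (a ≤ n + 2 ∨ b ≤ n + 2 ∨ c ≤ n + 2) →
          ∀ w j, MWAt R deg q w (D.H (hypS t) w j)) ∧
    ((∀ X : Sch K, SmProj X → ∀ i, MWAt R deg q i (D.H X i i)) ↔
      ∀ (a b c : ℕ) (t : Fin a → Fin b → Fin c → K) (w j : ℤ),
        MWAt R deg q w (D.H (hypS t) w j)) :=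
  mw_main hk hC hD hR hq surfaces

end Pool.Agent.Results.MP_6451f1_ag.CubicHypersurfaces
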