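import Pool.Agent.Y143.Prod.Pst
import Pool.Agent.Y143.Prod.SumDefs

/-!
# The p-adic weight-monodromy conjecture for fibre products of elliptic curves over curves
-/

open Pool.Agent.Y143 Pool.Agent.Y143.Par Pool.Agent.Y143.Prod
open scoped TensorProduct

universe v

/-- Let `D = H^m_pst(X)` be the `P₀`-space attached to the `p`-adic cohomology of a smooth proper variety
`X` over the local field `K`, with the linear action of the Weil group `W`, such that over a
finite extension of `K` (with residue field with `q ^ e` elements) it is, after extension of scalars,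
a direct summand of a sum of Tate twists of parabolic cohomology groups `H^1(C, j_* S)` (for
Hyodo-Kato cohomology), where `S` is a tensor product of sheaves `Sym^(k_i) R^1 f_(i*)`, for elliptic
curves `f_i : E_i → U` over an open subset `j : U → C` of a smooth projective curve `C`. Then the
monodromy filtration `M` of `D` is stable under `W` and every eigenvalue of every `g` in `W` on the
graded piece `gr^M_s D` is an algebraic number all of whose conjugates have absolute value
`q ^ (deg g (s + m) / 2)`. -/
theorem Pool.Agent.Results.MP_6451f1_ag.FibreProducts.result {P₀ : Type} [Field P₀]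
    [Algebra P₀ ℂ] {W : Type} [Group W] {deg : W → ℤ}
    (hdeg : ∀ g h, deg (g * h) = deg g + deg h) {q : ℕ} (hq : q ≠ 0)
    (E : PstModule.{v} P₀ W) (hE : E.IsRep deg q) (m e : ℕ) {ι : Type} [Finite ι]
    (P : ι → ProductCohomology.{v} (q ^ e)) (t : ι → ℤ) (hm : ∀ i, (P i).k + 1 + 2 * t i = m)
    (hS : (E.extend m).IsSummand deg q e m (sumFrob P t) (sumN P)) :
    ∃ M : ℤ → Submodule P₀ E.D, IsMonodromyFiltration E.N M ∧
      (∀ (g : W) a x, x ∈ M a → E.act g x ∈ M a) ∧
      ∀ (s : ℤ) (g : W) (α : ℂ), IsEigenvalueOn (fun a => (M a).baseChange ℂ) s ⊤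
        ((E.act g).baseChange ℂ) α → IsWeilNumber q (deg g * (s + m)) α :=
  pst_pure hq hdeg hE hS
    (isMWPure_pi (pow_ne_zero e hq) (fun i => (P i).H) (fun i => (P i).frob) (fun i => (P i).N) t
      (fun i => (P i).k + 1) m hm fun i => (P i).isMWPure)
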